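import Mathlib
import Pool.Agent.R285.AtomicBlocks

/-!
# Q1: the atomic block quasi-norm does not dominate the Hardy quasi-norm
-/

set_option autoImplicit false

namespace Pool.Agent.Results.MP_fbca0c_an.AtomicNormFails

open MeasureTheory ENNReal Filter Topology Pool.Agent.R285.AtomicBlocks

/-- the discrete σ-algebra -/
instance mS : MeasurableSpace (Bool × ℕ) := ⊤

instance : MeasurableSingletonClass (Bool × ℕ) := ⟨fun _ => trivial⟩

lemma ms (s : Set (Bool × ℕ)) : MeasurableSet s := trivial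

/-- the weights `μ{(i, n)} = 2^{-(n+2)}` -/
noncomputable def w (x : Bool × ℕ) : ℝ≥0∞ := (2⁻¹ : ℝ≥0∞) ^ (x.2 + 2)

/-- the probability measure of the example -/
noncomputable def μ : Measure (Bool × ℕ) := Measure.sum fun x => w x • Measure.dirac x

lemma μ_apply (s : Set (Bool × ℕ)) : μ s = ∑' x, w x * s.indicator 1 x := by
  unfold μ
  rw [Measure.sum_apply _ (ms s)]
  refine tsum_congr fun x => ?_
  rw [Measure.smul_apply, Measure.dirac_apply' _ (ms s), smul_eq_mul]

lemma geo (m : ℕ) : ∑' n : ℕ, (2⁻¹ : ℝ≥0∞) ^ (n + (m + 1)) = (2⁻¹ : ℝ≥0∞) ^ m := by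
  have h1 : ∀ n : ℕ, (2⁻¹ : ℝ≥0∞) ^ (n + (m + 1)) = (2⁻¹ : ℝ≥0∞) ^ (m + 1) * (2⁻¹ : ℝ≥0∞) ^ n := by
    intro n; rw [← pow_add]; congr 1; omega
  rw [tsum_congr h1, ENNReal.tsum_mul_left, ENNReal.tsum_geometric, ENNReal.one_sub_inv_two,
    inv_inv, pow_succ, mul_assoc, ENNReal.inv_mul_cancel (by norm_num) (by norm_num), mul_one]

lemma μ_fiber (i : Bool) : μ {x | x.1 = i} = 2⁻¹ := by
  rw [μ_apply, ENNReal.tsum_prod']
  rw [tsum_eq_single i]
  · have : ∀ n : ℕ, w (i, n) * ({x : Bool × ℕ | x.1 = i}).indicator 1 (i, n) =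
        (2⁻¹ : ℝ≥0∞) ^ (n + (1 + 1)) := by
      intro n; simp [w]
    rw [tsum_congr this, geo, pow_one]
  · intro j hj
    have : ∀ n : ℕ, w (j, n) * ({x : Bool × ℕ | x.1 = i}).indicator 1 (j, n) = 0 := by
      intro n; simp [hj]
    rw [tsum_congr this, tsum_zero]

lemma μ_point (y : Bool × ℕ) : μ {y} = w y := by
  rw [μ_apply, tsum_eq_single y]
  · simp
  · intro x hx
    simp [hx]

instance : IsProbabilityMeasure μ := by
  constructor
  have h : (Set.univ : Set (Bool × ℕ)) = {x | x.1 = true} ∪ {x | x.1 = false} := by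
    ext x; cases h : x.1 <;> simp [h]
  have hd : Disjoint {x : Bool × ℕ | x.1 = true} {x | x.1 = false} := by
    rw [Set.disjoint_left]
    intro x hx hx'
    rw [Set.mem_ofPred_eq] at hx hx'
    rw [hx] at hx'
    exact Bool.noConfusion hx'
  rw [h, measure_union hd (ms _), μ_fiber, μ_fiber, ENNReal.inv_two_add_inv_two]

/-- the filtration: `Σ_1` trivial, `Σ_2` generated by the two halves, `Σ_k` discrete for
`k ≥ 3` -/
def filt : Filtration ℕ mS where
  seq n := match n with
    | 0 => ⊥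
    | 1 => MeasurableSpace.comap Prod.fst ⊤
    | _ + 2 => ⊤
  mono' := by
    intro m n hmn
    match m, n, hmn with
    | 0, _, _ => exact bot_le
    | 1, 1, _ => exact le_rfl
    | 1, _ + 2, _ => exact le_top
    | _ + 2, _ + 2, _ => exact le_rfl
  le' := fun n => le_top

lemma filt0 : (filt 0 : MeasurableSpace (Bool × ℕ)) = ⊥ := rfl
lemma filt1 : (filt 1 : MeasurableSpace (Bool × ℕ)) = MeasurableSpace.comap Prod.fst ⊤ := rfl
lemma filt2 : (filt 2 : MeasurableSpace (Bool × ℕ)) = ⊤ := rfl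

/-- the real number `ε_n = 2^{-(n+2)}` -/
noncomputable def ep (n : ℕ) : ℝ := (2⁻¹ : ℝ) ^ (n + 2)

lemma ep_pos (n : ℕ) : 0 < ep n := by unfold ep; positivity

lemma w_toReal (i : Bool) (n : ℕ) : (w (i, n)).toReal = ep n := by
  unfold w ep
  rw [ENNReal.toReal_pow, ENNReal.toReal_inv]
  simp

/-- the test functions -/
noncomputable def f (n : ℕ) : Bool × ℕ → ℂ :=
  ({((true, n) : Bool × ℕ)} : Set (Bool × ℕ)).indicator (fun _ => (1 : ℂ)) -
    ({((false, n) : Bool × ℕ)} : Set (Bool × ℕ)).indicator (fun _ => (1 : ℂ))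

/-- their conditional expectations onto `Σ_2` -/
noncomputable def g (n : ℕ) : Bool × ℕ → ℂ :=
  ({x : Bool × ℕ | x.1 = true}).indicator (fun _ => (2 * ep n : ℂ)) -
    ({x : Bool × ℕ | x.1 = false}).indicator (fun _ => (2 * ep n : ℂ))

lemma integrable_ind (s : Set (Bool × ℕ)) (c : ℂ) : Integrable (s.indicator fun _ => c) μ :=
  (integrable_const c).indicator (ms s)

lemma integrable_f (n : ℕ) : Integrable (f n) μ := (integrable_ind _ _).sub (integrable_ind _ _)
lemma integrable_g (n : ℕ) : Integrable (g n) μ := (integrable_ind _ _).sub (integrable_ind _ _)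

lemma setInt_ind (s t : Set (Bool × ℕ)) (c : ℂ) :
    ∫ x in s, t.indicator (fun _ => c) x ∂μ = (μ (t ∩ s)).toReal * c := by
  rw [setIntegral_indicator (ms t), setIntegral_const, Set.inter_comm]
  rw [Measure.real, Complex.real_smul]

lemma inter_point (B : Set Bool) (i : Bool) (n : ℕ) [Decidable (i ∈ B)] :
    (μ (({((i, n) : Bool × ℕ)} : Set (Bool × ℕ)) ∩ Prod.fst ⁻¹' B)).toReal =
      if i ∈ B then ep n else 0 := by
  split_ifs with h
  · have : ({((i, n) : Bool × ℕ)} : Set (Bool × ℕ)) ∩ Prod.fst ⁻¹' B = {(i, n)} := by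
      ext x; simp only [Set.mem_inter_iff, Set.mem_singleton_iff, Set.mem_preimage]
      constructor
      · exact fun hx => hx.1
      · rintro rfl; exact ⟨rfl, h⟩
    rw [this, μ_point, w_toReal]
  · have : ({((i, n) : Bool × ℕ)} : Set (Bool × ℕ)) ∩ Prod.fst ⁻¹' B = ∅ := by
      ext x; simp only [Set.mem_inter_iff, Set.mem_singleton_iff, Set.mem_preimage,
        Set.mem_empty_iff_false, iff_false]
      rintro ⟨rfl, hx⟩; exact h hx
    rw [this]; simp

lemma inter_fiber (B : Set Bool) (i : Bool) [Decidable (i ∈ B)] :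
    (μ ({x : Bool × ℕ | x.1 = i} ∩ Prod.fst ⁻¹' B)).toReal = if i ∈ B then 1 / 2 else 0 := by
  split_ifs with h
  · have : {x : Bool × ℕ | x.1 = i} ∩ Prod.fst ⁻¹' B = {x | x.1 = i} := by
      ext x; simp only [Set.mem_inter_iff, Set.mem_ofPred_eq, Set.mem_preimage]
      constructor
      · exact fun hx => hx.1
      · intro hx; exact ⟨hx, by rw [hx]; exact h⟩
    rw [this, μ_fiber]; simp
  · have : {x : Bool × ℕ | x.1 = i} ∩ Prod.fst ⁻¹' B = ∅ := by
      ext x; simp only [Set.mem_inter_iff, Set.mem_ofPred_eq, Set.mem_preimage,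
        Set.mem_empty_iff_false, iff_false]
      rintro ⟨hx, hx'⟩; rw [hx] at hx'; exact h hx'
    rw [this]; simp

lemma condExp_f1 (n : ℕ) : g n =ᵐ[μ] μ[f n | (filt 1 : MeasurableSpace (Bool × ℕ))] := by
  classical
  refine ae_eq_condExp_of_forall_setIntegral_eq (filt.le 1) (integrable_f n)
    (fun s _ _ => (integrable_g n).integrableOn) ?_ ?_
  · intro s hs _
    rw [filt1] at hs
    obtain ⟨B, _, rfl⟩ := hs
    unfold f g
    simp only [Pi.sub_apply]
    rw [integral_sub (integrable_ind _ _).integrableOn (integrable_ind _ _).integrableOn,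
      integral_sub (integrable_ind _ _).integrableOn (integrable_ind _ _).integrableOn,
      setInt_ind, setInt_ind, setInt_ind, setInt_ind, inter_point, inter_point, inter_fiber,
      inter_fiber]
    split_ifs <;> push_cast <;> ring
  · rw [filt1]
    have h1 : g n = (fun b : Bool => if b then (2 * ep n : ℂ) else -(2 * ep n : ℂ)) ∘
        (Prod.fst : Bool × ℕ → Bool) := by
      funext x
      obtain ⟨i, m⟩ := x
      cases i <;> simp [g]
    rw [h1]
    have h2 : Measurable (fun b : Bool => if b then (2 * ep n : ℂ) else -(2 * ep n : ℂ)) :=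
      measurable_from_top
    have h3 : @Measurable (Bool × ℕ) Bool (MeasurableSpace.comap Prod.fst ⊤) ⊤ Prod.fst :=
      comap_measurable _
    exact (h2.comp h3).stronglyMeasurable.aestronglyMeasurable

lemma integral_f (n : ℕ) : ∫ x, f n x ∂μ = 0 := by
  classical
  rw [← setIntegral_univ]
  unfold f
  simp only [Pi.sub_apply]
  rw [integral_sub (integrable_ind _ _).integrableOn (integrable_ind _ _).integrableOn,
    setInt_ind, setInt_ind, Set.inter_univ, Set.inter_univ, μ_point, μ_point, w_toReal, w_toReal,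
    sub_self]

lemma condExp_f0 (n : ℕ) : μ[f n | (filt 0 : MeasurableSpace (Bool × ℕ))] =ᵐ[μ] 0 := by
  rw [filt0, condExp_bot, integral_f]
  rfl

lemma norm_g (n : ℕ) (x : Bool × ℕ) : ‖g n x‖ = 2 * ep n := by
  have h := ep_pos n
  obtain ⟨i, m⟩ := x
  have h2 : ‖(2 * ep n : ℂ)‖ = 2 * ep n := by
    rw [norm_mul, Complex.norm_real, Real.norm_of_nonneg h.le]; simp
  cases i <;> simp [g, abs_of_pos h]

/-- lower bound for the Hardy quasi-norm -/
lemma hardy_ge (p : ℝ) (hp : 0 < p) (n : ℕ) :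
    ENNReal.ofReal (2 * ep n) ≤ hardyNorm μ filt p (f n) := by
  unfold hardyNorm
  rw [one_div, ENNReal.le_rpow_inv_iff hp]
  have h1 : ENNReal.ofReal (2 * ep n) ^ p = ∫⁻ _x : Bool × ℕ, ENNReal.ofReal (2 * ep n) ^ p ∂μ := by
    rw [lintegral_const, measure_univ, mul_one]
  rw [h1]
  refine lintegral_mono_ae ?_
  filter_upwards [condExp_f1 n, condExp_f0 n] with x hx1 hx0
  have h2 : mdiff μ filt (f n) 1 x = g n x := by
    change (μ[f n | (filt 1 : MeasurableSpace (Bool × ℕ))] -
      μ[f n | (filt 0 : MeasurableSpace (Bool × ℕ))]) x = g n x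
    rw [Pi.sub_apply, hx0, ← hx1]
    simp
  have h3 : ‖mdiff μ filt (f n) 1 x‖ₑ ^ 2 ≤ ∑' m, ‖mdiff μ filt (f n) m x‖ₑ ^ 2 :=
    ENNReal.le_tsum 1
  have h4 : ‖g n x‖ₑ = ENNReal.ofReal (2 * ep n) := by
    rw [← norm_g n x, ofReal_norm]
  rw [h2, h4] at h3
  calc ENNReal.ofReal (2 * ep n) ^ p = (ENNReal.ofReal (2 * ep n) ^ 2) ^ (p / 2) := by
        rw [← ENNReal.rpow_natCast, ← ENNReal.rpow_mul]
        congr 1
        push_cast
        ring
    _ ≤ _ := ENNReal.rpow_le_rpow h3 (by positivity)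

/-- the support of the test function -/
def A (n : ℕ) : Set (Bool × ℕ) := {x | x.2 = n}

lemma μ_A (n : ℕ) : μ (A n) = ENNReal.ofReal (2 * ep n) := by
  have h : A n = {((true, n) : Bool × ℕ)} ∪ {((false, n) : Bool × ℕ)} := by
    ext ⟨i, m⟩
    cases i <;> simp [A]
  have hd : Disjoint ({((true, n) : Bool × ℕ)} : Set (Bool × ℕ)) {((false, n) : Bool × ℕ)} := by
    rw [Set.disjoint_singleton]
    simp
  have hw : ∀ i, w (i, n) = ENNReal.ofReal (ep n) := by
    intro i
    rw [← w_toReal i n, ENNReal.ofReal_toReal]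
    unfold w
    exact ENNReal.pow_ne_top (by simp)
  rw [h, measure_union hd (ms _), μ_point, μ_point, hw, hw, ← ENNReal.ofReal_add (ep_pos n).le
    (ep_pos n).le]
  congr 1; ring

lemma norm_f (n : ℕ) (x : Bool × ℕ) : ‖f n x‖ₑ = (A n).indicator (fun _ => (1 : ℝ≥0∞)) x := by
  obtain ⟨i, m⟩ := x
  by_cases h : m = n
  · subst h; cases i <;> simp [f, A]
  · cases i <;> simp [f, A, h]

lemma eLpNorm_f (s : ℝ) (hs : 0 < s) (n : ℕ) :
    eLpNorm (f n) (ENNReal.ofReal s) μ = ENNReal.ofReal (2 * ep n) ^ (1 / s) := by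
  have hs0 : ENNReal.ofReal s ≠ 0 := by simpa using hs
  rw [eLpNorm_eq_lintegral_rpow_enorm_toReal hs0 ENNReal.ofReal_ne_top, ENNReal.toReal_ofReal hs.le]
  congr 1
  have : ∀ x, ‖f n x‖ₑ ^ s = (A n).indicator (fun _ => (1 : ℝ≥0∞)) x := by
    intro x
    rw [norm_f]
    by_cases hx : x ∈ A n
    · simp [hx]
    · simp [hx, hs]
  simp only [this]
  rw [lintegral_indicator (ms _)]
  simp [μ_A]

/-- upper bound for the size of the block `f n` -/
lemma blockSize_le (p q : ℝ) (hp : 0 < p) (hp1 : p < 1) (hq : 1 < q) (n : ℕ) :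
    IsBlock μ filt p q (f n) ∧
      blockSize μ filt p q (f n) ≤ 3 * ENNReal.ofReal (2 * ep n) ^ (1 / p) := by
  set δ := 2 * ep n with hδ
  have hδ0 : 0 < δ := by have := ep_pos n; positivity
  set c : ℝ := 3 * δ ^ (1 / p) with hc
  have hc0 : 0 < c := by positivity
  have hrep : IsBlockRep μ filt p q (f n) 0 (fun j => if j = 0 then (c : ℂ) else 0)
      (fun j => if j = 0 then ((c : ℂ)⁻¹) • f n else 0) := by
    refine ⟨condExp_f0 n, fun j => ?_, fun j => ?_, ?_⟩
    · split_ifs
      · exact ((integrable_f n).smul _).aestronglyMeasurable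
      · exact aestronglyMeasurable_const
    · by_cases hj : j = 0
      · refine ⟨2, Nat.zero_le _, A n, trivial, ?_, ?_⟩
        · refine Filter.Eventually.of_forall fun x hx => ?_
          have h1 : ‖f n x‖ₑ = 0 := by rw [norm_f]; simp [hx]
          have h2 : f n x = 0 := enorm_eq_zero.1 h1
          rw [if_pos hj]
          simp [h2]
        · rw [if_pos hj, eLpNorm_const_smul, eLpNorm_f q (by linarith), μ_A, ← hδ]
          have h3 : ‖((c : ℂ))⁻¹‖ₑ = ENNReal.ofReal c⁻¹ := by
            rw [← ofReal_norm, norm_inv, Complex.norm_real, Real.norm_of_nonneg hc0.le]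
          rw [h3, ENNReal.ofReal_rpow_of_pos hδ0, ENNReal.ofReal_rpow_of_pos hδ0,
            ← ENNReal.ofReal_mul (by positivity)]
          have h4 : ((2 - 0 + 1 : ℕ) : ℝ≥0∞)⁻¹ = ENNReal.ofReal (1 / 3) := by
            rw [one_div, ENNReal.ofReal_inv_of_pos (by norm_num)]
            simp
          rw [h4, ← ENNReal.ofReal_mul (by positivity)]
          apply ENNReal.ofReal_le_ofReal
          apply le_of_eq
          have h5 : 1 - 1 / p - 1 / (q / (q - 1)) = 1 / q - 1 / p := by
            have : q ≠ 0 := by linarith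
            have : q - 1 ≠ 0 := by linarith
            field_simp
            ring
          rw [h5, Real.rpow_sub hδ0, hc]
          field_simp
      · refine ⟨0, le_rfl, Set.univ, MeasurableSet.univ, ?_, ?_⟩
        · simp [hj]
        · simp [hj]
    · refine tendsto_const_nhds.congr' ?_
      filter_upwards [eventually_ge_atTop 1] with m hm
      have h1 : ∑ j ∈ Finset.range m, (if j = 0 then (c : ℂ) else 0) •
          (if j = 0 then ((c : ℂ)⁻¹) • f n else 0) = f n := by
        rw [Finset.sum_eq_single 0]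
        · simp only [if_true]
          rw [smul_smul, mul_inv_cancel₀ (by exact_mod_cast hc0.ne'), one_smul]
        · intro j _ hj; simp [hj]
        · intro h; exact absurd (Finset.mem_range.2 (by omega)) h
      rw [h1, sub_self]
      simp
  refine ⟨⟨integrable_f n, Or.inr ⟨_, _, _, hrep⟩⟩, ?_⟩
  unfold blockSize
  split_ifs with h
  · rw [eLpNorm_f p hp, ← hδ]
    calc ENNReal.ofReal δ ^ (1 / p) = 1 * ENNReal.ofReal δ ^ (1 / p) := (one_mul _).symm
      _ ≤ 3 * ENNReal.ofReal δ ^ (1 / p) := by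
        gcongr
        norm_num
  · refine iInf_le_of_le 0 (iInf_le_of_le _ (iInf_le_of_le _ (iInf_le_of_le hrep ?_)))
    rw [tsum_eq_single 0 (fun j hj => by simp [hj])]
    simp only [if_true]
    rw [← ofReal_norm, Complex.norm_real, Real.norm_of_nonneg hc0.le, hc,
      ENNReal.ofReal_mul (by norm_num), ← ENNReal.ofReal_rpow_of_pos hδ0]
    simp

/-- upper bound for the atomic quasi-norm -/
lemma atb_le (p q : ℝ) (hp : 0 < p) (hp1 : p < 1) (hq : 1 < q) (n : ℕ) :
    atbNorm μ filt p q (f n) ≤ 3 * ENNReal.ofReal (2 * ep n) ^ (1 / p) := by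
  obtain ⟨hb, hs⟩ := blockSize_le p q hp hp1 hq n
  have h0 : AEStronglyMeasurable[filt 0] (0 : Bool × ℕ → ℂ) μ := aestronglyMeasurable_const
  have hz : IsBlock μ filt p q (0 : Bool × ℕ → ℂ) := ⟨integrable_zero _ _ _, Or.inl h0⟩
  have hz2 : blockSize μ filt p q (0 : Bool × ℕ → ℂ) = 0 := by
    unfold blockSize
    rw [if_pos h0]
    simp
  unfold atbNorm
  refine iInf_le_of_le (fun i => if i = 0 then f n else 0) (iInf_le_of_le ⟨?_, ?_⟩ ?_)
  · intro i
    by_cases hi : i = 0
    · simp only [if_pos hi]; exact hb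
    · simp only [if_neg hi]; exact hz
  · refine tendsto_const_nhds.congr' ?_
    filter_upwards [eventually_ge_atTop 1] with m hm
    have h1 : ∑ i ∈ Finset.range m, (if i = 0 then f n else 0) = f n := by
      rw [Finset.sum_eq_single 0]
      · simp
      · intro j _ hj; simp [hj]
      · intro h; exact absurd (Finset.mem_range.2 (by omega)) h
    rw [h1, sub_self]
    simp
  · rw [tsum_eq_single 0 (fun j hj => by
      simp only [if_neg hj, hz2]
      exact ENNReal.zero_rpow_of_pos hp)]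
    simp only [if_true]
    rw [← ENNReal.rpow_mul, mul_one_div_cancel hp.ne', ENNReal.rpow_one]
    exact hs

/-- **Negative answer to Q1, for all `0 < p < 1 < q < ∞`**: there is one filtered probability
space (`Σ_1` trivial, `Σ_2` generated by two halves, `Σ_k = Σ` discrete with countably many atoms
for `k ≥ 3`) on which no constant `C < ∞` gives `‖f‖_{H_p} ≤ C ‖f‖_atb` for all `f ∈ L_∞`, for any
`p`, `q`. In particular the two quasi-norms are not equivalent. -/
theorem result : ∃ (Ω : Type) (mΩ : MeasurableSpace Ω) (μ : Measure Ω) (ℱ : Filtration ℕ mΩ),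
    IsProbabilityMeasure μ ∧ (⨆ n, (ℱ n : MeasurableSpace Ω)) = mΩ ∧
    ∀ p q : ℝ, 0 < p → p < 1 → 1 < q →
      (¬ ∃ C : NNReal, ∀ f : Ω → ℂ, MemLp f ⊤ μ →
        hardyNorm μ ℱ p f ≤ C * atbNorm μ ℱ p q f) ∧
      (¬ ∃ C : NNReal, ∀ f : Ω → ℂ, MemLp f ⊤ μ →
        (C : ℝ≥0∞)⁻¹ * hardyNorm μ ℱ p f ≤ atbNorm μ ℱ p q f ∧
          atbNorm μ ℱ p q f ≤ C * hardyNorm μ ℱ p f) := by
  refine ⟨Bool × ℕ, mS, μ, filt, inferInstance, ?_, ?_⟩
  · apply le_antisymm
    · exact iSup_le fun n => le_top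
    · exact le_iSup_of_le 2 le_rfl
  intro p q hp hp1 hq
  have hmem : ∀ n, MemLp (f n) ⊤ μ := by
    intro n
    refine MemLp.sub ?_ ?_ <;> exact memLp_top_const _ |>.indicator trivial
  have key : ¬ ∃ C : NNReal, ∀ f : Bool × ℕ → ℂ, MemLp f ⊤ μ →
      hardyNorm μ filt p f ≤ C * atbNorm μ filt p q f := by
    rintro ⟨C, hC⟩
    -- the inequality for the test functions
    have h1 : ∀ n, ENNReal.ofReal (2 * ep n) ≤
        C * (3 * ENNReal.ofReal (2 * ep n) ^ (1 / p)) := by
      intro n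
      refine (hardy_ge p hp n).trans ((hC (f n) (hmem n)).trans ?_)
      gcongr
      exact atb_le p q hp hp1 hq n
    have h2 : ∀ n, 1 ≤ (C : ℝ) * 3 * (2 * ep n) ^ (1 / p - 1) := by
      intro n
      have hδ0 : 0 < 2 * ep n := by have := ep_pos n; positivity
      have h3 := h1 n
      rw [ENNReal.ofReal_rpow_of_pos hδ0] at h3
      have h4 : (C : ℝ≥0∞) * (3 * ENNReal.ofReal ((2 * ep n) ^ (1 / p))) =
          ENNReal.ofReal ((C : ℝ) * (3 * (2 * ep n) ^ (1 / p))) := by
        rw [ENNReal.ofReal_mul (NNReal.coe_nonneg C), ENNReal.ofReal_mul (by norm_num)]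
        congr 1
        · simp
        · congr 1
          simp
      rw [h4, ENNReal.ofReal_le_ofReal_iff (by positivity)] at h3
      rw [Real.rpow_sub hδ0, Real.rpow_one]
      rw [mul_div_assoc', le_div_iff₀ hδ0]
      linarith
    have h5 : Tendsto (fun n => (C : ℝ) * 3 * (2 * ep n) ^ (1 / p - 1)) atTop (𝓝 0) := by
      have h6 : 0 < 1 / p - 1 := by
        rw [sub_pos, lt_div_iff₀ hp]; linarith
      have h7 : Tendsto (fun n => 2 * ep n) atTop (𝓝 0) := by
        have h8 : Tendsto (fun n : ℕ => (2⁻¹ : ℝ) ^ (n + 2)) atTop (𝓝 0) :=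
          (_root_.tendsto_pow_atTop_nhds_zero_of_lt_one (by norm_num) (by norm_num)).comp
            (tendsto_add_atTop_nat 2)
        have := h8.const_mul 2
        rwa [mul_zero] at this
      have h9 := h7.rpow_const (p := 1 / p - 1) (Or.inr h6.le)
      rw [Real.zero_rpow h6.ne'] at h9
      have := h9.const_mul ((C : ℝ) * 3)
      rwa [mul_zero] at this
    have h6 := ge_of_tendsto' h5 h2
    linarith
  refine ⟨key, ?_⟩
  rintro ⟨C, hC⟩
  apply key
  refine ⟨C, fun f hf => ?_⟩
  have h1 := (hC f hf).1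
  by_cases hC0 : C = 0
  · subst hC0
    obtain ⟨h2, h3⟩ := hC f hf
    simp only [ENNReal.coe_zero, zero_mul, nonpos_iff_eq_zero] at h3
    rw [h3] at h2
    simp only [ENNReal.coe_zero, ENNReal.inv_zero, nonpos_iff_eq_zero] at h2
    rcases mul_eq_zero.1 h2 with h4 | h4
    · exact absurd h4 ENNReal.top_ne_zero
    · rw [h4]; exact zero_le
  · have hC1 : (C : ℝ≥0∞) ≠ 0 := by exact_mod_cast hC0
    calc hardyNorm μ filt p f = C * ((C : ℝ≥0∞)⁻¹ * hardyNorm μ filt p f) := by
          rw [← mul_assoc, ENNReal.mul_inv_cancel hC1 ENNReal.coe_ne_top, one_mul]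
      _ ≤ C * atbNorm μ filt p q f := by gcongr

end Pool.Agent.Results.MP_fbca0c_an.AtomicNormFails
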