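import Mathlib
import Pool.Agent.R285.AtomicBlocks

/-!
# Q2: the dual of the martingale Hardy space is not the Lipschitz class
-/

set_option autoImplicit false

namespace Pool.Agent.Results.MP_fbca0c_an.DualityFails

open MeasureTheory ENNReal Filter Topology Pool.Agent.R285.AtomicBlocks

/-- the weights `μ{n} = 2^{-(n+1)}` -/
noncomputable def w (n : ℕ) : ℝ≥0∞ := (2⁻¹ : ℝ≥0∞) ^ (n + 1)

/-- the geometric probability measure on `ℕ` -/
noncomputable def μ : Measure ℕ := Measure.sum fun x => w x • Measure.dirac x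

lemma ms (s : Set ℕ) : MeasurableSet s := trivial

lemma μ_apply (s : Set ℕ) : μ s = ∑' x, w x * s.indicator 1 x := by
  unfold μ
  rw [Measure.sum_apply _ (ms s)]
  refine tsum_congr fun x => ?_
  rw [Measure.smul_apply, Measure.dirac_apply' _ (ms s), smul_eq_mul]

lemma μ_point (y : ℕ) : μ {y} = w y := by
  rw [μ_apply, tsum_eq_single y]
  · simp
  · intro x hx
    simp [hx]

instance : IsProbabilityMeasure μ := by
  constructor
  rw [μ_apply]
  have h1 : ∀ n : ℕ, w n * (Set.univ : Set ℕ).indicator 1 n = 2⁻¹ * (2⁻¹ : ℝ≥0∞) ^ n := by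
    intro n
    unfold w
    rw [pow_succ]
    simp [mul_comm]
  rw [tsum_congr h1, ENNReal.tsum_mul_left, ENNReal.tsum_geometric, ENNReal.one_sub_inv_two,
    inv_inv, ENNReal.inv_mul_cancel (by norm_num) (by norm_num)]

/-- the filtration: `Σ_1` trivial, `Σ_k` discrete for `k ≥ 2` -/
def filt : Filtration ℕ (⊤ : MeasurableSpace ℕ) where
  seq n := match n with
    | 0 => ⊥
    | _ + 1 => ⊤
  mono' := by
    intro m n hmn
    match m, n, hmn with
    | 0, _, _ => exact bot_le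
    | _ + 1, _ + 1, _ => exact le_rfl
  le' := fun n => le_top

lemma filt0 : (filt 0 : MeasurableSpace ℕ) = ⊥ := rfl
lemma filt1 : (filt 1 : MeasurableSpace ℕ) = ⊤ := rfl

lemma w_ne (n : ℕ) : w n ≠ 0 := by
  unfold w
  exact pow_ne_zero _ (by simp)

lemma w_ne_top (n : ℕ) : w n ≠ ⊤ := by
  unfold w
  exact ENNReal.pow_ne_top (by simp)

lemma w_toReal (n : ℕ) : (w n).toReal = (2⁻¹ : ℝ) ^ (n + 1) := by
  unfold w
  rw [ENNReal.toReal_pow, ENNReal.toReal_inv]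
  simp

/-- almost everywhere means everywhere -/
lemma ae_iff_forall (P : ℕ → Prop) : (∀ᵐ x ∂μ, P x) ↔ ∀ x, P x := by
  constructor
  · intro h x
    by_contra hx
    have h1 : μ {y | ¬ P y} = 0 := h
    have h2 : μ {x} ≤ μ {y | ¬ P y} := measure_mono (by simpa using hx)
    rw [h1, μ_point] at h2
    exact w_ne x (le_antisymm h2 (zero_le))
  · exact fun h => Filter.Eventually.of_forall h

lemma mdiff0 (f : ℕ → ℂ) (x : ℕ) : mdiff μ filt f 0 x = ∫ y, f y ∂μ := by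
  change (μ[f | (filt 0 : MeasurableSpace ℕ)]) x = _
  rw [filt0, condExp_bot]

lemma mdiff1 (f : ℕ → ℂ) (hf : Integrable f μ) (x : ℕ) :
    mdiff μ filt f 1 x = f x - ∫ y, f y ∂μ := by
  change (μ[f | (filt 1 : MeasurableSpace ℕ)] - μ[f | (filt 0 : MeasurableSpace ℕ)]) x = _
  rw [filt0, condExp_bot, filt1]
  have h1 : μ[f | (⊤ : MeasurableSpace ℕ)] = f :=
    condExp_of_stronglyMeasurable le_rfl (by
      have : Measurable f := measurable_from_top
      exact this.stronglyMeasurable) hf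
  rw [h1]
  rfl

lemma setInt_point (f : ℕ → ℂ) (x : ℕ) : ∫ y in {x}, f y ∂μ = (2⁻¹ : ℝ) ^ (x + 1) * f x := by
  rw [integral_singleton, Measure.real, μ_point, w_toReal, Complex.real_smul]
  push_cast
  rfl

/-- the evaluation functional is bounded in the Hardy quasi-norm -/
lemma bounded (p : ℝ) (hp : 0 < p) (f : ℕ → ℂ) (hf : Integrable f μ) :
    ‖∫ y, f y * ({0} : Set ℕ).indicator (fun _ => (1 : ℂ)) y ∂μ‖ₑ ≤
      ((2 : ℝ≥0∞) * 2 ^ (1 / p)) * hardyNorm μ filt p f := by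
  have e1 : ∫ y, f y * ({0} : Set ℕ).indicator (fun _ => (1 : ℂ)) y ∂μ = (2⁻¹ : ℝ) * f 0 := by
    have : ∀ y, f y * ({0} : Set ℕ).indicator (fun _ => (1 : ℂ)) y =
        ({0} : Set ℕ).indicator f y := by
      intro y
      by_cases hy : y = 0
      · subst hy; simp
      · simp [hy]
    simp only [this]
    rw [integral_indicator (ms _), setInt_point]
    simp
  rw [e1]
  -- the square function at `0`
  set I := ∫ y, f y ∂μ with hI
  set Sq : ℝ≥0∞ := ∑' n, ‖mdiff μ filt f n 0‖ₑ ^ 2 with hSq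
  have h1 : ‖I‖ₑ ^ 2 ≤ Sq := by
    have := ENNReal.le_tsum (f := fun n => ‖mdiff μ filt f n 0‖ₑ ^ 2) 0
    simpa only [mdiff0] using this
  have h2 : ‖f 0 - I‖ₑ ^ 2 ≤ Sq := by
    have := ENNReal.le_tsum (f := fun n => ‖mdiff μ filt f n 0‖ₑ ^ 2) 1
    simpa only [mdiff1 f hf] using this
  have hroot : ∀ a : ℝ≥0∞, a ^ 2 ≤ Sq → a ≤ Sq ^ (1 / 2 : ℝ) := by
    intro a ha
    rw [one_div, ENNReal.le_rpow_inv_iff (by norm_num)]
    have : a ^ (2 : ℝ) = a ^ 2 := by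
      rw [← ENNReal.rpow_natCast]; norm_num
    rw [this]
    exact ha
  have h3 : ‖f 0‖ₑ ≤ 2 * Sq ^ (1 / 2 : ℝ) := by
    have h4 : f 0 = (f 0 - I) + I := by ring
    calc ‖f 0‖ₑ = ‖(f 0 - I) + I‖ₑ := by rw [← h4]
      _ ≤ ‖f 0 - I‖ₑ + ‖I‖ₑ := enorm_add_le _ _
      _ ≤ Sq ^ (1 / 2 : ℝ) + Sq ^ (1 / 2 : ℝ) := add_le_add (hroot _ h2) (hroot _ h1)
      _ = 2 * Sq ^ (1 / 2 : ℝ) := by rw [two_mul]
  have h5 : (2⁻¹ : ℝ≥0∞) ^ (1 / p) * Sq ^ (1 / 2 : ℝ) ≤ hardyNorm μ filt p f := by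
    unfold hardyNorm
    have h6 : 2⁻¹ * Sq ^ (p / 2) ≤
        ∫⁻ x, (∑' n, ‖mdiff μ filt f n x‖ₑ ^ 2) ^ (p / 2) ∂μ := by
      calc 2⁻¹ * Sq ^ (p / 2) = ∫⁻ x in {0}, (∑' n, ‖mdiff μ filt f n x‖ₑ ^ 2) ^ (p / 2) ∂μ := by
            rw [lintegral_singleton, μ_point]
            unfold w
            rw [zero_add, pow_one, mul_comm]
        _ ≤ _ := setLIntegral_le_lintegral _ _
    calc (2⁻¹ : ℝ≥0∞) ^ (1 / p) * Sq ^ (1 / 2 : ℝ) = (2⁻¹ * Sq ^ (p / 2)) ^ (1 / p) := by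
          rw [ENNReal.mul_rpow_of_nonneg _ _ (by positivity), ← ENNReal.rpow_mul]
          congr 2
          field_simp
      _ ≤ _ := ENNReal.rpow_le_rpow h6 (by positivity)
  have h7 : ‖((2⁻¹ : ℝ) : ℂ) * f 0‖ₑ ≤ ‖f 0‖ₑ := by
    rw [enorm_mul]
    have : ‖((2⁻¹ : ℝ) : ℂ)‖ₑ ≤ 1 := by
      rw [← ofReal_norm, Complex.norm_real]
      simp
    calc ‖((2⁻¹ : ℝ) : ℂ)‖ₑ * ‖f 0‖ₑ ≤ 1 * ‖f 0‖ₑ := by gcongr
      _ = _ := one_mul _
  have h8 : (2 : ℝ≥0∞) ^ (1 / p) * (2⁻¹ : ℝ≥0∞) ^ (1 / p) = 1 := by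
    rw [← ENNReal.mul_rpow_of_nonneg _ _ (by positivity),
      ENNReal.mul_inv_cancel (by norm_num) (by norm_num), ENNReal.one_rpow]
  calc ‖((2⁻¹ : ℝ) : ℂ) * f 0‖ₑ ≤ 2 * Sq ^ (1 / 2 : ℝ) := h7.trans h3
    _ = 2 * ((2 : ℝ≥0∞) ^ (1 / p) * (2⁻¹ : ℝ≥0∞) ^ (1 / p)) * Sq ^ (1 / 2 : ℝ) := by
        rw [h8, mul_one]
    _ = (2 * 2 ^ (1 / p)) * ((2⁻¹ : ℝ≥0∞) ^ (1 / p) * Sq ^ (1 / 2 : ℝ)) := by ring
    _ ≤ _ := by gcongr

/-- the indicator of the largest atom has infinite (even localized) Lipschitz norm -/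
lemma lip_infinite (p q : ℝ) (hp : 0 < p) (hp1 : p < 1) (hq : 1 < q) :
    lipNormLocal μ filt p q (({0} : Set ℕ).indicator fun _ => (1 : ℂ)) = ⊤ := by
  set g : ℕ → ℂ := ({0} : Set ℕ).indicator fun _ => (1 : ℂ) with hg
  have hgi : Integrable g μ := (integrable_const 1).indicator (ms _)
  have hint : ∫ y, g y ∂μ = 2⁻¹ := by
    rw [hg, integral_indicator (ms _), setInt_point]
    simp
  apply top_unique
  have h6 : 1 - 1 / p < 0 := by
    rw [sub_neg, lt_div_iff₀ hp]; linarith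
  -- the terms with `A = {n}`, `n ≥ 1`
  have hterm : ∀ n : ℕ, 1 ≤ n → w n ^ (1 - 1 / p) * 2⁻¹ ≤ lipNormLocal μ filt p q g := by
    intro n hn
    have hA : MeasurableSet[filt 1] ({n} : Set ℕ) ∧ μ {n} ≠ 0 := by
      refine ⟨trivial, ?_⟩
      rw [μ_point]; exact w_ne n
    refine le_trans ?_ (le_iSup_of_le 1 (le_iSup_of_le {n} (le_iSup_of_le hA le_rfl)))
    rw [μ_point]
    gcongr
    refine le_trans ?_ le_add_self
    have h1 : ∀ᵐ x ∂(μ.restrict {n}), ‖mdiff μ filt g 1 x‖ = 2⁻¹ := by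
      rw [ae_restrict_iff' (ms _)]
      refine Filter.Eventually.of_forall fun x hx => ?_
      rw [Set.mem_singleton_iff] at hx
      subst hx
      rw [mdiff1 g hgi, hint, hg]
      have : x ≠ 0 := by omega
      simp [this]
    have h2 : eLpNorm (mdiff μ filt g 1) ⊤ (μ.restrict {n}) = 2⁻¹ := by
      have h3 : eLpNorm (mdiff μ filt g 1) ⊤ (μ.restrict {n}) =
          eLpNorm (fun _ : ℕ => (2⁻¹ : ℂ)) ⊤ (μ.restrict {n}) := by
        apply eLpNorm_congr_norm_ae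
        filter_upwards [h1] with x hx
        rw [hx]; simp
      rw [h3, eLpNorm_exponent_top, eLpNormEssSup_const]
      · simp [← ofReal_norm]
      · intro h
        rw [Measure.restrict_eq_zero, μ_point] at h
        exact w_ne n h
    rw [h2]
  have hlim : Tendsto (fun n : ℕ => w n ^ (1 - 1 / p) * 2⁻¹) atTop (𝓝 ⊤) := by
    have h7 : Tendsto w atTop (𝓝 0) := by
      have h8 : Tendsto (fun n : ℕ => (2⁻¹ : ℝ≥0∞) ^ n) atTop (𝓝 0) :=
        ENNReal.tendsto_pow_atTop_nhds_zero_of_lt_one (by simp)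
      exact h8.comp (tendsto_add_atTop_nat 1)
    have h9 : Tendsto (fun n : ℕ => w n ^ (1 - 1 / p)) atTop (𝓝 ⊤) := by
      have h10 := h7.ennrpow_const (1 - 1 / p)
      rwa [ENNReal.zero_rpow_of_neg h6] at h10
    have h11 := ENNReal.Tendsto.mul_const (b := 2⁻¹) h9 (Or.inl ENNReal.top_ne_zero)
    rwa [ENNReal.top_mul (by simp)] at h11
  refine le_of_tendsto hlim ?_
  filter_upwards [eventually_ge_atTop 1] with n hn
  exact hterm n hn

/-- **Negative answer to Q2, for all `0 < p < 1 < q < ∞`**: there is one filtered probability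
space (`Σ_1` trivial, `Σ_k = Σ` discrete with atoms of measure `2^{-n-1}` for `k ≥ 2`) and a
function `g₀ ∈ L_∞` such that `f ↦ ∫ f g₀ dμ` is bounded on `L_∞` in the quasi-norm of `H_p`, while
no `g ∈ L_q` with finite Lipschitz norm represents this functional. The same holds with the
smaller localized Lipschitz norm. -/
theorem result : ∃ (Ω : Type) (mΩ : MeasurableSpace Ω) (μ : Measure Ω) (ℱ : Filtration ℕ mΩ)
    (g₀ : Ω → ℂ), IsProbabilityMeasure μ ∧ (⨆ n, (ℱ n : MeasurableSpace Ω)) = mΩ ∧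
    MemLp g₀ ⊤ μ ∧ ∀ p q : ℝ, 0 < p → p < 1 → 1 < q →
      (∃ C : NNReal, ∀ f : Ω → ℂ, MemLp f ⊤ μ →
        ‖∫ x, f x * g₀ x ∂μ‖ₑ ≤ C * hardyNorm μ ℱ p f) ∧
      ¬ ∃ g : Ω → ℂ, MemLp g (ENNReal.ofReal q) μ ∧
        (lipNorm μ ℱ p q g < ⊤ ∨ lipNormLocal μ ℱ p q g < ⊤) ∧
        ∀ f : Ω → ℂ, MemLp f ⊤ μ → ∫ x, f x * g₀ x ∂μ = ∫ x, f x * g x ∂μ := by
  refine ⟨ℕ, ⊤, μ, filt, ({0} : Set ℕ).indicator (fun _ => (1 : ℂ)), inferInstance, ?_, ?_, ?_⟩
  · apply le_antisymm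
    · exact iSup_le fun n => le_top
    · exact le_iSup_of_le 1 le_rfl
  · exact (memLp_top_const _).indicator (ms _)
  intro p q hp hp1 hq
  constructor
  · refine ⟨2 * 2 ^ (1 / p), fun f hf => ?_⟩
    have h1 := bounded p hp f (hf.integrable le_top)
    have h2 : (((2 * 2 ^ (1 / p) : NNReal)) : ℝ≥0∞) = 2 * 2 ^ (1 / p) := by
      rw [ENNReal.coe_mul, ENNReal.coe_rpow_of_nonneg _ (by positivity)]
      simp
    rw [h2]
    exact h1
  · rintro ⟨g, _, hfin, hrep⟩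
    have hgg : g = ({0} : Set ℕ).indicator (fun _ => (1 : ℂ)) := by
      funext n
      have h1 := hrep (({n} : Set ℕ).indicator fun _ => (1 : ℂ))
        ((memLp_top_const _).indicator (ms _))
      have h2 : ∀ h : ℕ → ℂ, ∫ x, ({n} : Set ℕ).indicator (fun _ => (1 : ℂ)) x * h x ∂μ =
          (2⁻¹ : ℝ) ^ (n + 1) * h n := by
        intro h
        have : ∀ x, ({n} : Set ℕ).indicator (fun _ => (1 : ℂ)) x * h x =
            ({n} : Set ℕ).indicator h x := by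
          intro x
          by_cases hx : x = n
          · subst hx; simp
          · simp [hx]
        simp only [this]
        rw [integral_indicator (ms _), setInt_point]
      rw [h2, h2] at h1
      have h3 : (((2⁻¹ : ℝ) : ℂ) ^ (n + 1)) ≠ 0 := pow_ne_zero _ (by norm_num)
      exact (mul_left_cancel₀ h3 h1).symm
    rw [hgg] at hfin
    have h4 := lip_infinite p q hp hp1 hq
    have h5 : lipNorm μ filt p q (({0} : Set ℕ).indicator fun _ => (1 : ℂ)) = ⊤ := by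
      apply top_unique
      rw [← h4]
      exact lipNormLocal_le _ _ _ _ _
    rw [h4, h5] at hfin
    simp at hfin

end Pool.Agent.Results.MP_fbca0c_an.DualityFails
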